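import Mathlib

/-!
# Coprime characteristic polynomials and equivariant maps
-/

set_option autoImplicit false
set_option linter.all false

open Module Polynomial
open scoped Classical

namespace Pool.Agent.Q45.AP

section mat

variable {R : Type} [CommRing R] {a b : ℕ}

/-- The matrix of the map `X ↦ H X - X F`. -/
def syl (F : Matrix (Fin a) (Fin a) R) (H : Matrix (Fin b) (Fin b) R) :
    Matrix (Fin b × Fin a) (Fin b × Fin a) R :=
  fun p q => (if p.2 = q.2 then H p.1 q.1 else 0) - (if p.1 = q.1 then F q.2 p.2 else 0)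

theorem syl_mulVec (F : Matrix (Fin a) (Fin a) R) (H : Matrix (Fin b) (Fin b) R)
    (x : Fin b × Fin a → R) (i : Fin b) (j : Fin a) :
    (syl F H).mulVec x (i, j) = ∑ i', H i i' * x (i', j) - ∑ j', x (i, j') * F j' j := by
  show ∑ q : Fin b × Fin a, ((if j = q.2 then H i q.1 else 0) - (if i = q.1 then F q.2 j else 0)) *
    x q = _
  simp only [sub_mul, Finset.sum_sub_distrib, Fintype.sum_prod_type, ite_mul, zero_mul]
  congr 1
  · refine Finset.sum_congr rfl fun i' _ => ?_
    rw [Finset.sum_ite_eq Finset.univ j fun y => H i i' * x (i', y)]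
    rw [if_pos (Finset.mem_univ _)]
  · rw [Finset.sum_comm]
    refine Finset.sum_congr rfl fun j' _ => ?_
    rw [Finset.sum_ite_eq Finset.univ i fun y => F j' j * x (y, j')]
    rw [if_pos (Finset.mem_univ _), mul_comm]

theorem syl_map {S : Type} [CommRing S] (f : R →+* S) (F : Matrix (Fin a) (Fin a) R)
    (H : Matrix (Fin b) (Fin b) R) : f.mapMatrix (syl F H) = syl (f.mapMatrix F) (f.mapMatrix H) := by
  ext p q
  show f ((if p.2 = q.2 then H p.1 q.1 else 0) - (if p.1 = q.1 then F q.2 p.2 else 0)) =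
    (if p.2 = q.2 then f (H p.1 q.1) else 0) - (if p.1 = q.1 then f (F q.2 p.2) else 0)
  rw [map_sub]
  congr 1
  · split_ifs <;> simp
  · split_ifs <;> simp

end mat

/-- A common root gives a solution over an algebraically closed field. -/
theorem syl_root {L : Type} [Field L] {a b : ℕ} (F : Matrix (Fin a) (Fin a) L)
    (H : Matrix (Fin b) (Fin b) L) (t : L) (hF : F.charpoly.eval t = 0) (hH : H.charpoly.eval t = 0) :
    (syl F H).det = 0 := by
  rw [Matrix.eval_charpoly] at hF hH
  rw [← Matrix.det_transpose] at hF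
  obtain ⟨ξ, hξ, h1⟩ := Matrix.exists_mulVec_eq_zero_iff.2 hF
  obtain ⟨v, hv, h2⟩ := Matrix.exists_mulVec_eq_zero_iff.2 hH
  rw [← Matrix.exists_mulVec_eq_zero_iff]
  refine ⟨fun p => v p.1 * ξ p.2, ?_, ?_⟩
  · intro h0
    obtain ⟨i, hi⟩ := Function.ne_iff.1 hv
    obtain ⟨j, hj⟩ := Function.ne_iff.1 hξ
    exact mul_ne_zero hi hj (congrFun h0 (i, j))
  · have h3 : ∀ i, ∑ i', H i i' * v i' = t * v i := by
      intro i
      have h4 := congrFun h2 i
      rw [Matrix.sub_mulVec, Pi.sub_apply, Matrix.scalar_apply, Matrix.mulVec_diagonal] at h4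
      exact (sub_eq_zero.1 h4).symm
    have h5 : ∀ j, ∑ j', ξ j' * F j' j = t * ξ j := by
      intro j
      have h6 := congrFun h1 j
      rw [Matrix.transpose_sub, Matrix.sub_mulVec, Pi.sub_apply, Matrix.scalar_apply,
        Matrix.diagonal_transpose, Matrix.mulVec_diagonal] at h6
      refine Eq.trans ?_ (sub_eq_zero.1 h6).symm
      refine Finset.sum_congr rfl fun j' _ => ?_
      rw [mul_comm]
      rfl
    funext p
    obtain ⟨i, j⟩ := p
    rw [syl_mulVec]
    have e1 : ∑ i', H i i' * (v i' * ξ j) = t * v i * ξ j := by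
      rw [← h3, Finset.sum_mul]
      exact Finset.sum_congr rfl fun i' _ => by ring
    have e2 : ∑ j', v i * ξ j' * F j' j = v i * (t * ξ j) := by
      rw [← h5, Finset.mul_sum]
      exact Finset.sum_congr rfl fun i' _ => by ring
    rw [e1, e2, Pi.zero_apply]
    ring

/-- If there are no equivariant maps, the characteristic polynomials are coprime. -/
theorem coprime_of_noHom {M N : Type} [AddCommGroup M] [Module ℤ_[2] M] [Module.Finite ℤ_[2] M]
    [Module.Free ℤ_[2] M] [AddCommGroup N] [Module ℤ_[2] N] [Module.Finite ℤ_[2] N]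
    [Module.Free ℤ_[2] N] (f : M →ₗ[ℤ_[2]] M) (h : N →ₗ[ℤ_[2]] N)
    (hH : ∀ Φ : M →ₗ[ℤ_[2]] N, (∀ x, Φ (f x) = h (Φ x)) → Φ = 0) :
    IsCoprime (f.charpoly.map (algebraMap ℤ_[2] ℚ_[2])) (h.charpoly.map (algebraMap ℤ_[2] ℚ_[2])) := by
  let bM := finBasis ℤ_[2] M
  let bN := finBasis ℤ_[2] N
  set F := LinearMap.toMatrix bM bM f with hF
  set H := LinearMap.toMatrix bN bN h with hHd
  by_contra hc
  -- a common root
  let L := AlgebraicClosure ℚ_[2]
  obtain ⟨t, ht1, ht2⟩ : ∃ t : L,
      ((f.charpoly.map (algebraMap ℤ_[2] ℚ_[2])).map (algebraMap ℚ_[2] L)).eval t = 0 ∧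
      ((h.charpoly.map (algebraMap ℤ_[2] ℚ_[2])).map (algebraMap ℚ_[2] L)).eval t = 0 := by
    set p := f.charpoly.map (algebraMap ℤ_[2] ℚ_[2])
    set q := h.charpoly.map (algebraMap ℤ_[2] ℚ_[2])
    have hp : p ≠ 0 := ((LinearMap.charpoly_monic f).map _).ne_zero
    have h1 : ¬ IsUnit (EuclideanDomain.gcd p q) := fun h2 => hc (EuclideanDomain.gcd_isUnit_iff.1 h2)
    have h0 : EuclideanDomain.gcd p q ≠ 0 := fun h2 => hp (EuclideanDomain.gcd_eq_zero_iff.1 h2).1
    have hd : (EuclideanDomain.gcd p q).degree ≠ 0 := fun h2 => h1 (isUnit_iff_degree_eq_zero.2 h2)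
    obtain ⟨t, ht⟩ := IsAlgClosed.exists_root ((EuclideanDomain.gcd p q).map (algebraMap ℚ_[2] L))
      (by rw [degree_map]; exact hd)
    refine ⟨t, ?_, ?_⟩
    · obtain ⟨c, hc⟩ := EuclideanDomain.gcd_dvd_left p q
      have h3 := congrArg (fun z => (z.map (algebraMap ℚ_[2] L)).eval t) hc
      simp only [Polynomial.map_mul, eval_mul] at h3
      rw [h3, show ((EuclideanDomain.gcd p q).map (algebraMap ℚ_[2] L)).eval t = 0 from ht, zero_mul]
    · obtain ⟨c, hc⟩ := EuclideanDomain.gcd_dvd_right p q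
      have h3 := congrArg (fun z => (z.map (algebraMap ℚ_[2] L)).eval t) hc
      simp only [Polynomial.map_mul, eval_mul] at h3
      rw [h3, show ((EuclideanDomain.gcd p q).map (algebraMap ℚ_[2] L)).eval t = 0 from ht, zero_mul]
  let g : ℤ_[2] →+* L := (algebraMap ℚ_[2] L).comp (algebraMap ℤ_[2] ℚ_[2])
  have hg : Function.Injective g := (algebraMap ℚ_[2] L).injective.comp
    (IsFractionRing.injective ℤ_[2] ℚ_[2])
  have hcp : ∀ (n : ℕ) (X : Matrix (Fin n) (Fin n) ℤ_[2]),
      (g.mapMatrix X).charpoly = (X.charpoly.map (algebraMap ℤ_[2] ℚ_[2])).map (algebraMap ℚ_[2] L) := by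
    intro n X
    rw [Polynomial.map_map]
    exact Matrix.charpoly_map X g
  rw [← LinearMap.charpoly_toMatrix f bM, ← hF, ← hcp] at ht1
  rw [← LinearMap.charpoly_toMatrix h bN, ← hHd, ← hcp] at ht2
  have h3 := syl_root _ _ t ht1 ht2
  rw [← syl_map, ← RingHom.map_det] at h3
  have h4 : (syl F H).det = 0 := hg (by rw [h3, map_zero])
  obtain ⟨x, hx, h5⟩ := Matrix.exists_mulVec_eq_zero_iff.2 h4
  let X : Matrix (Fin (finrank ℤ_[2] N)) (Fin (finrank ℤ_[2] M)) ℤ_[2] := fun i j => x (i, j)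
  have h6 : H * X = X * F := by
    ext i j
    have h7 := congrFun h5 (i, j)
    rw [syl_mulVec, Pi.zero_apply] at h7
    exact sub_eq_zero.1 h7
  have h8 := hH (Matrix.toLin bM bN X) (fun y => by
    have h9 : (Matrix.toLin bM bN X) ∘ₗ f = h ∘ₗ (Matrix.toLin bM bN X) := by
      apply (LinearMap.toMatrix bM bN).injective
      rw [LinearMap.toMatrix_comp bM bM bN, LinearMap.toMatrix_comp bM bN bN,
        LinearMap.toMatrix_toLin, ← hF, ← hHd, h6]
    exact LinearMap.congr_fun h9 y)
  have h9 : X = 0 := by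
    have h10 := congrArg (LinearMap.toMatrix bM bN) h8
    rwa [LinearMap.toMatrix_toLin, map_zero] at h10
  apply hx
  funext p
  exact congrFun (congrFun h9 p.1) p.2

/-- Coprime characteristic polynomials: no equivariant maps. -/
theorem hom_zero {K W U : Type} [Field K] [AddCommGroup W] [Module K W] [Module.Finite K W]
    [AddCommGroup U] [Module K U] [Module.Finite K U] (f : W →ₗ[K] W) (h : U →ₗ[K] U)
    (hc : IsCoprime f.charpoly h.charpoly) (Φ : W →ₗ[K] U) (hΦ : ∀ w, Φ (f w) = h (Φ w)) : Φ = 0 := by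
  have key : ∀ (q : K[X]) (w : W), Φ (aeval f q w) = aeval h q (Φ w) := by
    intro q
    induction q using Polynomial.induction_on' with
    | add p q hp hq =>
      intro w
      rw [map_add, map_add, LinearMap.add_apply, LinearMap.add_apply, map_add, hp, hq]
    | monomial n c =>
      have hpow : ∀ (n : ℕ) (w : W), Φ ((f ^ n) w) = (h ^ n) (Φ w) := by
        intro n
        induction n with
        | zero => exact fun w => rfl
        | succ n ih =>
          intro w
          rw [pow_succ, pow_succ, Module.End.mul_apply, Module.End.mul_apply, ih, hΦ]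
      intro w
      rw [aeval_monomial, aeval_monomial, Module.End.mul_apply, Module.End.mul_apply,
        Module.algebraMap_end_apply, Module.algebraMap_end_apply, map_smul, hpow]
  obtain ⟨a, b, hab⟩ := hc
  ext w
  have h1 : aeval f (b * h.charpoly) w = w := by
    have h2 := congrArg (fun q => aeval f q w) hab
    simp only [map_add, map_mul, LinearMap.aeval_self_charpoly, mul_zero, zero_add, map_one] at h2
    rw [map_mul]
    exact h2
  have h3 := key (b * h.charpoly) w
  rw [h1, map_mul, LinearMap.aeval_self_charpoly, mul_zero] at h3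
  exact h3

/-- The passage to another prime. -/
theorem hom_zero_of_same {K M N W U : Type} [AddCommGroup M] [Module ℤ_[2] M]
    [Module.Finite ℤ_[2] M] [Module.Free ℤ_[2] M] [AddCommGroup N] [Module ℤ_[2] N]
    [Module.Finite ℤ_[2] N] [Module.Free ℤ_[2] N] (f : M →ₗ[ℤ_[2]] M) (h : N →ₗ[ℤ_[2]] N)
    (hH : ∀ Φ : M →ₗ[ℤ_[2]] N, (∀ x, Φ (f x) = h (Φ x)) → Φ = 0)
    [Field K] [Algebra ℚ K] [AddCommGroup W] [Module K W] [Module.Finite K W]
    [AddCommGroup U] [Module K U] [Module.Finite K U] (f' : W →ₗ[K] W) (h' : U →ₗ[K] U)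
    {p q : ℚ[X]} (hp : p.map (algebraMap ℚ ℚ_[2]) = f.charpoly.map (algebraMap ℤ_[2] ℚ_[2]))
    (hp' : p.map (algebraMap ℚ K) = f'.charpoly)
    (hq : q.map (algebraMap ℚ ℚ_[2]) = h.charpoly.map (algebraMap ℤ_[2] ℚ_[2]))
    (hq' : q.map (algebraMap ℚ K) = h'.charpoly)
    (Φ : W →ₗ[K] U) (hΦ : ∀ w, Φ (f' w) = h' (Φ w)) : Φ = 0 := by
  refine hom_zero f' h' ?_ Φ hΦ
  have h1 := coprime_of_noHom f h hH
  rw [← hp, ← hq] at h1
  rw [← hp', ← hq']
  exact ((Polynomial.isCoprime_map _).1 h1).map (Polynomial.mapRingHom (algebraMap ℚ K))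

end Pool.Agent.Q45.AP
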