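import Pool.Agent.Q45.OI.P.QB
import Pool.Agent.Q45.RD.Fam

/-!
# The forms are nondegenerate and the ranks are even
-/

set_option autoImplicit false
set_option linter.all false

open Module
open scoped Classical

namespace Pool.Agent.Q45.AP

open Pool.Agent.Q45.OI

/-- An alternating matrix of odd size over the field with two elements is singular. -/
theorem det_alt {n : ℕ} (hn : Odd n) (A : Matrix (Fin n) (Fin n) (ZMod 2))
    (hs : ∀ i j, A i j = A j i) (hd : ∀ i, A i i = 0) : A.det = 0 := by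
  let B : Matrix (Fin n) (Fin n) ℤ := fun i j =>
    if i < j then ((A i j).val : ℤ) else if j < i then -((A i j).val : ℤ) else 0
  have hB : B.transpose = -B := by
    ext i j
    show B j i = -(B i j)
    rcases lt_trichotomy i j with h | h | h
    · have h1 : ¬ j < i := not_lt.2 h.le
      show (if j < i then ((A j i).val : ℤ) else if i < j then -((A j i).val : ℤ) else 0) =
        -(if i < j then ((A i j).val : ℤ) else if j < i then -((A i j).val : ℤ) else 0)
      rw [if_neg h1, if_pos h, if_pos h, hs j i]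
    · subst h
      show (if i < i then ((A i i).val : ℤ) else if i < i then -((A i i).val : ℤ) else 0) =
        -(if i < i then ((A i i).val : ℤ) else if i < i then -((A i i).val : ℤ) else 0)
      rw [if_neg (lt_irrefl i), if_neg (lt_irrefl i), neg_zero]
    · have h1 : ¬ i < j := not_lt.2 h.le
      show (if j < i then ((A j i).val : ℤ) else if i < j then -((A j i).val : ℤ) else 0) =
        -(if i < j then ((A i j).val : ℤ) else if j < i then -((A i j).val : ℤ) else 0)
      rw [if_pos h, if_neg h1, if_pos h, hs j i, neg_neg]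
  have h0 : B.det = 0 := by
    have h1 : B.det = -B.det := by
      conv_lhs => rw [← Matrix.det_transpose, hB, Matrix.det_neg, Fintype.card_fin, hn.neg_one_pow,
        neg_one_mul]
    omega
  have h2 : (Int.castRingHom (ZMod 2)).mapMatrix B = A := by
    ext i j
    have hval : ∀ c : ZMod 2, ((c.val : ℤ) : ZMod 2) = c := by decide
    have hneg : ∀ c : ZMod 2, ((-(c.val : ℤ) : ℤ) : ZMod 2) = c := by decide
    show ((if i < j then ((A i j).val : ℤ) else if j < i then -((A i j).val : ℤ) else 0 : ℤ) :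
      ZMod 2) = A i j
    rcases lt_trichotomy i j with h | h | h
    · rw [if_pos h, hval]
    · subst h
      rw [if_neg (lt_irrefl i), if_neg (lt_irrefl i), hd, Int.cast_zero]
    · rw [if_neg (not_lt.2 h.le), if_pos h, hneg]
  rw [← h2, ← RingHom.map_det, h0, map_zero]

section one

variable {M V : Type} [AddCommGroup M] [Module ℤ_[2] M] [Module.Free ℤ_[2] M]
  [Module.Finite ℤ_[2] M] [AddCommGroup V] [Module (ZMod 2) V] [Module.Finite (ZMod 2) V]
  {κ : M →+ V} {H : Subgroup (End ℤ_[2] M)ˣ} {Γ : Subgroup (V ≃ₗ[ZMod 2] V)}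

theorem Dat.nondeg (h : Dat M V κ H Γ) (B : M →ₗ[ℤ_[2]] M →ₗ[ℤ_[2]] ℤ_[2]) (hB : B ≠ 0)
    (hsym : ∀ x y, B x y = B y x) (hinv : ∀ g ∈ H, InO B (g : End ℤ_[2] M)) (x : M)
    (hx : ∀ y, B x y = 0) : x = 0 := by
  obtain ⟨s, B₁, β, hB₁, hB₁0, hsym₁, hinv₁, hβ, hβs, hβinv, hnd, hcases⟩ :=
    h.form B hB hsym hinv
  have h2 : (2 : ℤ_[2]) ≠ 0 := two_ne
  have key : ∀ (n : ℕ) (x : M), (∀ y, B₁ x y = 0) → ∃ b, x = (2 : ℤ_[2]) ^ n • b := by
    intro n
    induction n with
    | zero => exact fun x _ => ⟨x, by rw [pow_zero, one_smul]⟩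
    | succ n ih =>
      intro x hx
      have h3 : κ x = 0 := hnd _ fun w => by
        obtain ⟨y, rfl⟩ := h.surj w
        rw [hβ, hx, map_zero]
      obtain ⟨x', rfl⟩ := (h.ker x).1 h3
      obtain ⟨b, hb⟩ := ih x' fun y => by
        have h4 := hx y
        rw [map_smul, LinearMap.smul_apply, smul_eq_mul] at h4
        exact (mul_eq_zero.1 h4).resolve_left h2
      exact ⟨b, by rw [hb, smul_smul, pow_succ']⟩
  refine zero_of_div fun n => key n x fun y => ?_
  have h3 := hx y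
  rw [hB₁] at h3
  simp only [LinearMap.smul_apply, smul_eq_mul] at h3
  exact (mul_eq_zero.1 h3).resolve_left (pow_ne_zero s h2)

theorem Dat.even (h : Dat M V κ H Γ) (B : M →ₗ[ℤ_[2]] M →ₗ[ℤ_[2]] ℤ_[2]) (hB : B ≠ 0)
    (hsym : ∀ x y, B x y = B y x) (hinv : ∀ g ∈ H, InO B (g : End ℤ_[2] M))
    (hV : 8 ≤ Nat.card V) : Even (finrank ℤ_[2] M) := by
  obtain ⟨s, B₁, β, hB₁, hB₁0, hsym₁, hinv₁, hβ, hβs, hβinv, hnd, hcases⟩ :=
    h.form B hB hsym hinv
  have halt : ∀ v, β v v = 0 := by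
    refine hcases.resolve_right fun h1 => ?_
    have hinj : Function.Injective fun v : V => β v v := by
      intro v w hvw
      have hvw' : β v v = β w w := hvw
      have h3 : β (v - w) (v - w) = 0 := by
        simp only [map_sub, LinearMap.sub_apply]
        rw [hβs w v, hvw']
        have : ∀ a b : ZMod 2, a - b - (b - a) = 0 := by decide
        exact this _ _
      exact sub_eq_zero.1 (h1 _ h3)
    have h4 : Nat.card V ≤ Nat.card (ZMod 2) := Nat.card_le_card_of_injective _ hinj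
    rw [Nat.card_zmod] at h4
    omega
  by_contra hodd
  rw [Nat.not_even_iff_odd] at hodd
  let b := finBasis ℤ_[2] M
  let A : Matrix (Fin (finrank ℤ_[2] M)) (Fin (finrank ℤ_[2] M)) (ZMod 2) :=
    fun i j => β (κ (b i)) (κ (b j))
  have h3 : A.det = 0 := det_alt hodd A (fun i j => hβs _ _) fun i => halt _
  obtain ⟨v, hv, hAv⟩ := Matrix.exists_mulVec_eq_zero_iff.2 h3
  have hval : ∀ c : ZMod 2, PadicInt.toZMod ((c.val : ℕ) : ℤ_[2]) = c := by
    intro c
    rw [map_natCast]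
    exact ZMod.natCast_zmod_val c
  let x : M := ∑ i, ((v i).val : ℤ_[2]) • b i
  have h4 : κ x = 0 := by
    refine hnd _ fun w => ?_
    obtain ⟨y, rfl⟩ := h.surj w
    rw [hβ]
    have h5 : ∀ j, PadicInt.toZMod (B₁ (b j) x) = 0 := by
      intro j
      have h6 := congrFun hAv j
      have h7 : B₁ (b j) x = ∑ i, B₁ (b j) (b i) * ((v i).val : ℤ_[2]) := by
        show B₁ (b j) (∑ i, ((v i).val : ℤ_[2]) • b i) = _
        rw [map_sum]
        refine Finset.sum_congr rfl fun i _ => ?_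
        rw [map_smul, smul_eq_mul, mul_comm]
      rw [h7, map_sum]
      refine Eq.trans (Finset.sum_congr rfl fun i _ => ?_) h6
      rw [map_mul, hval, ← hβ]
    rw [hsym₁]
    clear_value x
    rw [← b.sum_repr y, map_sum, LinearMap.sum_apply, map_sum]
    refine Finset.sum_eq_zero fun j _ => ?_
    rw [map_smul, LinearMap.smul_apply, smul_eq_mul, map_mul, h5, mul_zero]
  obtain ⟨x', hx'⟩ := (h.ker x).1 h4
  apply hv
  funext i
  have h5 : b.repr x i = ((v i).val : ℤ_[2]) := by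
    show b.repr (∑ i, ((v i).val : ℤ_[2]) • b i) i = _
    rw [b.repr_sum_self]
  have h6 : b.repr x i = 2 * b.repr x' i := by
    rw [hx', map_smul, Finsupp.smul_apply, smul_eq_mul]
  have h7 := congrArg PadicInt.toZMod (h5.symm.trans h6)
  rw [hval, map_mul] at h7
  rw [h7]
  have h8 : PadicInt.toZMod (2 : ℤ_[2]) = 0 := by
    have h9 : (2 : ℤ_[2]) = ((2 : ℕ) : ℤ_[2]) := by norm_num
    rw [h9, map_natCast]
    decide
  rw [h8, zero_mul]
  rfl

end one

section multi

variable {ι : Type} [Fintype ι] {M V : ι → Type} [∀ i, AddCommGroup (M i)]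
  [∀ i, Module ℤ_[2] (M i)] [∀ i, Module.Free ℤ_[2] (M i)] [∀ i, Module.Finite ℤ_[2] (M i)]
  [∀ i, AddCommGroup (V i)] [∀ i, Module (ZMod 2) (V i)] [∀ i, Module.Finite (ZMod 2) (V i)]
  {N : Type} [AddCommGroup N] [Module ℤ_[2] N] [Module.Free ℤ_[2] N] [Module.Finite ℤ_[2] N]
  {G : Type} [Group G]
  {ρ : ∀ i, G →* (End ℤ_[2] (M i))ˣ} {ν : G →* (End ℤ_[2] N)ˣ} {κ : ∀ i, M i →+ V i}
  {act : ∀ i, G →* (V i ≃ₗ[ZMod 2] V i)} {β : ∀ i, M i →ₗ[ℤ_[2]] M i →ₗ[ℤ_[2]] ℤ_[2]}

theorem FamN.inO (h : FamN ρ ν κ act β) (i : ι) :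
    ∀ g ∈ (ρ i).range, InO (β i) (g : End ℤ_[2] (M i)) := by
  rintro _ ⟨T, rfl⟩ x y
  exact h.inv i T x y

theorem FamN.nondeg (h : FamN ρ ν κ act β) (i : ι) (x : M i) (hx : ∀ y, β i x y = 0) : x = 0 :=
  Dat.nondeg (h.blk i).dat (β i) (h.ne i) (h.symm i) (FamN.inO h i) x hx

theorem FamN.even (h : FamN ρ ν κ act β) (i : ι) : Even (finrank ℤ_[2] (M i)) :=
  Dat.even (h.blk i).dat (β i) (h.ne i) (h.symm i) (FamN.inO h i) (h.card i)

end multi

end Pool.Agent.Q45.AP
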