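import Pool.Agent.Q45.AP.Cop

/-!
# Fixed vectors at another prime
-/

set_option autoImplicit false
set_option linter.all false

open Module Polynomial
open scoped Classical

namespace Pool.Agent.Q45.AP

/-- An endomorphism without fixed functionals has no fixed vectors at another prime. -/
theorem fixed_zero {V : Type} [AddCommGroup V] [Module ℤ_[2] V] [Module.Finite ℤ_[2] V]
    [Module.Free ℤ_[2] V] (f : V →ₗ[ℤ_[2]] V)
    (hH : ∀ Φ : V →ₗ[ℤ_[2]] ℤ_[2], (∀ x, Φ (f x) = Φ x) → Φ = 0) {K W : Type} [Field K]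
    [Algebra ℚ K] [AddCommGroup W] [Module K W] [Module.Finite K W] (f' : W →ₗ[K] W) {p : ℚ[X]}
    (hp : p.map (algebraMap ℚ ℚ_[2]) = f.charpoly.map (algebraMap ℤ_[2] ℚ_[2]))
    (hp' : p.map (algebraMap ℚ K) = f'.charpoly) (w : W) (hw : f' w = w) : w = 0 := by
  have h1 := coprime_of_noHom f (1 : ℤ_[2] →ₗ[ℤ_[2]] ℤ_[2]) hH
  rw [← hp, LinearMap.charpoly_one, finrank_self, pow_one, Polynomial.map_sub, map_X,
    Polynomial.map_one] at h1
  have h2 : p.eval 1 ≠ 0 := by
    intro h0
    obtain ⟨a, b, hab⟩ := h1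
    have h3 := congrArg (fun q => q.eval (1 : ℚ_[2])) hab
    have h4 : (p.map (algebraMap ℚ ℚ_[2])).eval 1 = 0 := by
      rw [eval_map, ← map_one (algebraMap ℚ ℚ_[2]), eval₂_at_apply, h0, map_zero]
    simp only [eval_add, eval_mul, h4, eval_sub, eval_X, eval_one, sub_self, mul_zero, add_zero] at h3
    exact zero_ne_one h3
  by_contra hw0
  have h5 : Module.End.HasEigenvalue f' (1 : K) :=
    Module.End.hasEigenvalue_of_hasEigenvector ⟨Module.End.mem_eigenspace_iff.2 (by rw [one_smul]; exact hw), hw0⟩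
  have h6 := (Module.End.hasEigenvalue_iff_isRoot_charpoly (f := f') (μ := (1 : K))).1 h5
  rw [← hp', IsRoot.def, eval_map, ← map_one (algebraMap ℚ K), eval₂_at_apply] at h6
  exact h2 ((algebraMap ℚ K).injective (by rw [h6, map_zero]))

end Pool.Agent.Q45.AP
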