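import Pool.Agent.Q45.AP.Cop

/-!
# The splitting of stable subspaces for operators with coprime characteristic polynomials
-/

set_option autoImplicit false
set_option linter.all false

open Module Polynomial
open scoped Classical

namespace Pool.Agent.Q45.AP

variable {K : Type} [Field K]

/-- If there are no equivariant maps, the characteristic polynomials are coprime. -/
theorem coprime_of_noHom_field {M N : Type} [AddCommGroup M] [Module K M] [Module.Finite K M]
    [AddCommGroup N] [Module K N] [Module.Finite K N] (f : M →ₗ[K] M) (h : N →ₗ[K] N)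
    (hH : ∀ Φ : M →ₗ[K] N, (∀ x, Φ (f x) = h (Φ x)) → Φ = 0) :
    IsCoprime f.charpoly h.charpoly := by
  let bM := finBasis K M
  let bN := finBasis K N
  set F := LinearMap.toMatrix bM bM f with hF
  set H := LinearMap.toMatrix bN bN h with hHd
  by_contra hc
  let L := AlgebraicClosure K
  obtain ⟨t, ht1, ht2⟩ : ∃ t : L, ((f.charpoly).map (algebraMap K L)).eval t = 0 ∧
      ((h.charpoly).map (algebraMap K L)).eval t = 0 := by
    set p := f.charpoly
    set q := h.charpoly
    have hp : p ≠ 0 := (LinearMap.charpoly_monic f).ne_zero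
    have h1 : ¬ IsUnit (EuclideanDomain.gcd p q) := fun h2 => hc (EuclideanDomain.gcd_isUnit_iff.1 h2)
    have h0 : EuclideanDomain.gcd p q ≠ 0 := fun h2 => hp (EuclideanDomain.gcd_eq_zero_iff.1 h2).1
    have hd : (EuclideanDomain.gcd p q).degree ≠ 0 := fun h2 => h1 (isUnit_iff_degree_eq_zero.2 h2)
    obtain ⟨t, ht⟩ := IsAlgClosed.exists_root ((EuclideanDomain.gcd p q).map (algebraMap K L))
      (by rw [degree_map]; exact hd)
    refine ⟨t, ?_, ?_⟩
    · obtain ⟨c, hc⟩ := EuclideanDomain.gcd_dvd_left p q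
      have h3 := congrArg (fun z => (z.map (algebraMap K L)).eval t) hc
      simp only [Polynomial.map_mul, eval_mul] at h3
      rw [h3, show ((EuclideanDomain.gcd p q).map (algebraMap K L)).eval t = 0 from ht, zero_mul]
    · obtain ⟨c, hc⟩ := EuclideanDomain.gcd_dvd_right p q
      have h3 := congrArg (fun z => (z.map (algebraMap K L)).eval t) hc
      simp only [Polynomial.map_mul, eval_mul] at h3
      rw [h3, show ((EuclideanDomain.gcd p q).map (algebraMap K L)).eval t = 0 from ht, zero_mul]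
  let g : K →+* L := algebraMap K L
  have hg : Function.Injective g := (algebraMap K L).injective
  have hcp : ∀ (n : ℕ) (X : Matrix (Fin n) (Fin n) K),
      (g.mapMatrix X).charpoly = (X.charpoly).map (algebraMap K L) := by
    intro n X
    exact Matrix.charpoly_map X g
  rw [← LinearMap.charpoly_toMatrix f bM, ← hF, ← hcp] at ht1
  rw [← LinearMap.charpoly_toMatrix h bN, ← hHd, ← hcp] at ht2
  have h3 := syl_root _ _ t ht1 ht2
  rw [← syl_map, ← RingHom.map_det] at h3
  have h4 : (syl F H).det = 0 := hg (by rw [h3, map_zero])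
  obtain ⟨x, hx, h5⟩ := Matrix.exists_mulVec_eq_zero_iff.2 h4
  let X : Matrix (Fin (finrank K N)) (Fin (finrank K M)) K := fun i j => x (i, j)
  have h6 : H * X = X * F := by
    ext i j
    have h7 := congrFun h5 (i, j)
    rw [syl_mulVec, Pi.zero_apply] at h7
    exact sub_eq_zero.1 h7
  have h8 := hH (Matrix.toLin bM bN X) (fun y => by
    have h9 : (Matrix.toLin bM bN X) ∘ₗ f = h ∘ₗ (Matrix.toLin bM bN X) := by
      apply (LinearMap.toMatrix bM bN).injective
      rw [LinearMap.toMatrix_comp bM bM bN, LinearMap.toMatrix_comp bM bN bN,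
        LinearMap.toMatrix_toLin, ← hF, ← hHd, h6]
    exact LinearMap.congr_fun h9 y)
  have h9 : X = 0 := by
    have h10 := congrArg (LinearMap.toMatrix bM bN) h8
    rwa [LinearMap.toMatrix_toLin, map_zero] at h10
  apply hx
  funext p
  exact congrFun (congrFun h9 p.1) p.2

/-- Equivariant maps commute with polynomials in the operators. -/
theorem hom_aeval {W U : Type} [AddCommGroup W] [Module K W] [AddCommGroup U] [Module K U]
    (f : W →ₗ[K] W) (h : U →ₗ[K] U) (Φ : W →ₗ[K] U) (hΦ : ∀ w, Φ (f w) = h (Φ w)) (q : K[X]) (w : W) :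
    Φ (aeval f q w) = aeval h q (Φ w) := by
  induction q using Polynomial.induction_on' generalizing w with
  | add p q hp hq =>
    rw [map_add, map_add, LinearMap.add_apply, LinearMap.add_apply, map_add, hp, hq]
  | monomial n c =>
    have hpow : ∀ (n : ℕ) (w : W), Φ ((f ^ n) w) = (h ^ n) (Φ w) := by
      intro n
      induction n with
      | zero => exact fun w => rfl
      | succ n ih =>
        intro w
        rw [pow_succ, pow_succ, Module.End.mul_apply, Module.End.mul_apply, ih, hΦ]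
    rw [aeval_monomial, aeval_monomial, Module.End.mul_apply, Module.End.mul_apply,
      Module.algebraMap_end_apply, Module.algebraMap_end_apply, map_smul, hpow]

/-- The subspaces which are stable under an operator are stable under its polynomials. -/
theorem aeval_mem {W : Type} [AddCommGroup W] [Module K W] (f : W →ₗ[K] W) {S : Submodule K W}
    (hS : ∀ w ∈ S, f w ∈ S) (q : K[X]) {w : W} (hw : w ∈ S) : aeval f q w ∈ S := by
  have h1 := hom_aeval (f.restrict hS) f S.subtype (fun w => rfl) q ⟨w, hw⟩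
  have h2 : aeval f q w = S.subtype (aeval (f.restrict hS) q ⟨w, hw⟩) := h1.symm
  rw [h2]
  exact (aeval (f.restrict hS) q ⟨w, hw⟩).2

/-- The splitting of the stable subspaces. -/
theorem split_of_coprime {E R : Type} [AddCommGroup E] [Module K E] [Module.Finite K E]
    [AddCommGroup R] [Module K R] [Module.Finite K R] (T : E →ₗ[K] E) (m : R →ₗ[K] R)
    (hc : IsCoprime m.charpoly T.charpoly) {S : Submodule K (E × R)}
    (hS : ∀ s ∈ S, (T s.1, m s.2) ∈ S) {x : E} {y : R} (h : (x, y) ∈ S) : (x, (0 : R)) ∈ S := by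
  obtain ⟨a, b, hab⟩ := hc
  have h1 := aeval_mem (T.prodMap m) (S := S) (fun s hs => hS s hs) (a * m.charpoly) h
  have h2 : (aeval (T.prodMap m) (a * m.charpoly) (x, y)).1 = x := by
    refine (hom_aeval (T.prodMap m) T (LinearMap.fst K E R) (fun w => rfl) _ (x, y)).trans ?_
    have h3 := congrArg (fun q => aeval T q x) hab
    simp only [map_add, map_mul, LinearMap.aeval_self_charpoly, mul_zero, add_zero, map_one] at h3
    rw [map_mul]
    exact h3
  have h4 : (aeval (T.prodMap m) (a * m.charpoly) (x, y)).2 = 0 := by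
    refine (hom_aeval (T.prodMap m) m (LinearMap.snd K E R) (fun w => rfl) _ (x, y)).trans ?_
    rw [map_mul, LinearMap.aeval_self_charpoly, mul_zero]
    rfl
  have h5 : aeval (T.prodMap m) (a * m.charpoly) (x, y) = (x, (0 : R)) := Prod.ext h2 h4
  rwa [h5] at h1

/-- The fixed vectors in the quotients of `Hom(W, U) × R` come from `R`. -/
theorem fixed_of_noHom {W U R : Type} [AddCommGroup W] [Module K W] [Module.Finite K W]
    [AddCommGroup U] [Module K U] [Module.Finite K U] [AddCommGroup R] [Module K R]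
    [Module.Finite K R] (f f' : W →ₗ[K] W) (h : U →ₗ[K] U) (m m' : R →ₗ[K] R)
    (hf : ∀ w, f' (f w) = w) (hm : ∀ y, m (m' y) = y)
    (hH : ∀ Ψ : W →ₗ[K] ((R × K) →ₗ[K] U),
      (∀ w, Ψ (f w) = h ∘ₗ (Ψ w) ∘ₗ (m'.prodMap LinearMap.id)) → Ψ = 0)
    {S : Submodule K ((W →ₗ[K] U) × R)} (hS : ∀ s ∈ S, (h ∘ₗ s.1 ∘ₗ f', m s.2) ∈ S)
    {Φ : W →ₗ[K] U} {y : R} (hΦ : (h ∘ₗ Φ ∘ₗ f' - Φ, m y - y) ∈ S) : (Φ, (0 : R)) ∈ S := by
  let T : (W →ₗ[K] U) →ₗ[K] (W →ₗ[K] U) :=
    { toFun := fun Φ => h ∘ₗ Φ ∘ₗ f'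
      map_add' := fun Φ Φ' => by
        ext w
        show h ((Φ + Φ') (f' w)) = h (Φ (f' w)) + h (Φ' (f' w))
        rw [LinearMap.add_apply, map_add]
      map_smul' := fun c Φ => by
        ext w
        show h ((c • Φ) (f' w)) = c • h (Φ (f' w))
        rw [LinearMap.smul_apply, map_smul] }
  let m₁ : (R × K) →ₗ[K] (R × K) := m.prodMap LinearMap.id
  have hcop : IsCoprime m₁.charpoly T.charpoly := by
    refine coprime_of_noHom_field m₁ T fun Θ hΘ => ?_
    have h1 : Θ.flip = 0 := by
      refine hH _ fun w => ?_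
      refine LinearMap.ext fun z => ?_
      show Θ z (f w) = h (Θ (m' z.1, z.2) w)
      have h2 : m₁ (m' z.1, z.2) = z := Prod.ext (hm z.1) rfl
      have h3 := LinearMap.congr_fun (hΘ (m' z.1, z.2)) (f w)
      rw [h2] at h3
      rw [h3]
      show h (Θ (m' z.1, z.2) (f' (f w))) = _
      rw [hf]
    refine LinearMap.ext fun z => LinearMap.ext fun w => ?_
    exact LinearMap.congr_fun (LinearMap.congr_fun h1 w) z
  let D : ((W →ₗ[K] U) × (R × K)) →ₗ[K] ((W →ₗ[K] U) × R) :=
    { toFun := fun s => (s.1 - s.2.2 • Φ, s.2.1 - s.2.2 • y)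
      map_add' := fun s t => by
        refine Prod.ext ?_ ?_
        · show s.1 + t.1 - (s.2.2 + t.2.2) • Φ = (s.1 - s.2.2 • Φ) + (t.1 - t.2.2 • Φ)
          rw [add_smul]
          abel
        · show s.2.1 + t.2.1 - (s.2.2 + t.2.2) • y = (s.2.1 - s.2.2 • y) + (t.2.1 - t.2.2 • y)
          rw [add_smul]
          abel
      map_smul' := fun c s => by
        refine Prod.ext ?_ ?_
        · show c • s.1 - (c • s.2.2) • Φ = c • (s.1 - s.2.2 • Φ)
          rw [smul_sub, smul_eq_mul, mul_smul]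
        · show c • s.2.1 - (c • s.2.2) • y = c • (s.2.1 - s.2.2 • y)
          rw [smul_sub, smul_eq_mul, mul_smul] }
  have hmem : ∀ s, s ∈ S.comap D ↔ (s.1 - s.2.2 • Φ, s.2.1 - s.2.2 • y) ∈ S := fun s => Iff.rfl
  have hstab : ∀ s ∈ S.comap D, (T s.1, m₁ s.2) ∈ S.comap D := by
    intro s hs
    rw [hmem] at hs ⊢
    have h5 := S.add_mem (hS _ hs) (S.smul_mem s.2.2 hΦ)
    refine (congrArg (fun v => v ∈ S) (Prod.ext ?_ ?_)).mp h5
    · show T (s.1 - s.2.2 • Φ) + s.2.2 • (T Φ - Φ) = T s.1 - s.2.2 • Φ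
      rw [map_sub, map_smul, smul_sub]
      abel
    · show m (s.2.1 - s.2.2 • y) + s.2.2 • (m y - y) = m s.2.1 - s.2.2 • y
      rw [map_sub, map_smul, smul_sub]
      abel
  have h6 := split_of_coprime T m₁ hcop hstab (x := Φ) (y := (y, (1 : K))) (by
    rw [hmem]
    have h7 : (Φ - (1 : K) • Φ, y - (1 : K) • y) = (0 : (W →ₗ[K] U) × R) := by
      rw [one_smul, one_smul, sub_self, sub_self]
      rfl
    show (Φ - (1 : K) • Φ, y - (1 : K) • y) ∈ S
    rw [h7]
    exact S.zero_mem)
  rw [hmem] at h6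
  have h8 : ((Φ - (0 : K) • Φ, (0 : R) - (0 : K) • y) : (W →ₗ[K] U) × R) = (Φ, 0) := by
    rw [zero_smul, zero_smul, sub_zero, sub_zero]
  have h9 : ((Φ - (0 : K) • Φ, (0 : R) - (0 : K) • y) : (W →ₗ[K] U) × R) ∈ S := h6
  rwa [h8] at h9

end Pool.Agent.Q45.AP
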